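import Mathlib
import Pool.Agent.H.MP_ca490d_an.A

set_option autoImplicit false

namespace Pool.Agent.H.MP_af3abc_an

open Set Filter Topology InnerProductSpace Pool.Agent.H.MP_ca490d_an
open scoped ENNReal Classical

variable {H : Type} [NormedAddCommGroup H] [InnerProductSpace ℂ H] [CompleteSpace H] {ι : Type}
  (b : HilbertBasis ι ℂ H)

noncomputable def pr (S : Set ι) : H →L[ℂ] H :=
  (Submodule.span ℂ (b '' S)).topologicalClosure.starProjection

theorem pr_star (S : Set ι) : star (pr b S) = pr b S := isSelfAdjoint_starProjection _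

theorem pr_inner (S : Set ι) (u v : H) : inner ℂ (pr b S u) v = inner ℂ u (pr b S v) :=
  Submodule.inner_starProjection_left_eq_right _ u v

theorem pr_norm (S : Set ι) : ‖pr b S‖ ≤ 1 := Submodule.starProjection_norm_le _

theorem pr_le (S : Set ι) (u : H) : ‖pr b S u‖ ≤ ‖u‖ := Submodule.norm_starProjection_apply_le _ u

theorem bb (i j : ι) : inner ℂ (b i) (b j) = if i = j then (1 : ℂ) else 0 :=
  orthonormal_iff_ite.1 b.orthonormal i j

theorem pr_b (S : Set ι) (i : ι) : pr b S (b i) = if i ∈ S then b i else 0 := by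
  split_ifs with h
  · exact Submodule.starProjection_eq_self_iff.2
      (Submodule.le_topologicalClosure _ (Submodule.subset_span ⟨i, h, rfl⟩))
  · refine (Submodule.starProjection_apply_eq_zero_iff _).2 ?_
    rw [Submodule.orthogonal_closure, Submodule.mem_orthogonal]
    intro u hu
    induction hu using Submodule.span_induction with
    | mem x hx => obtain ⟨j, hj, rfl⟩ := hx; rw [bb, if_neg]; rintro rfl; exact h hj
    | zero => simp
    | add x y _ _ h1 h2 => rw [inner_add_left, h1, h2, add_zero]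
    | smul a x _ h1 => rw [inner_smul_left, h1, mul_zero]

theorem inner_pr (S : Set ι) (i : ι) (u : H) :
    inner ℂ (b i) (pr b S u) = if i ∈ S then inner ℂ (b i) u else 0 := by
  rw [← pr_inner, pr_b]; split_ifs <;> simp

theorem ext_vec {u v : H} (h : ∀ i, inner ℂ (b i) u = inner ℂ (b i) v) : u = v :=
  b.repr.injective (by ext i; rw [b.repr_apply_apply, b.repr_apply_apply, h])

noncomputable def en (T : H →L[ℂ] H) (i j : ι) : ℂ := inner ℂ (b i) (T (b j))

theorem ext_op {T S : H →L[ℂ] H} (h : ∀ i j, en b T i j = en b S i j) : T = S :=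
  ContinuousLinearMap.ext_on (s := range b)
    (Submodule.dense_iff_topologicalClosure_eq_top.2 b.dense_span) (by
      rintro _ ⟨j, rfl⟩
      exact ext_vec b fun i => h i j)

theorem en_add (T S : H →L[ℂ] H) (i j : ι) : en b (T + S) i j = en b T i j + en b S i j := by
  simp [en, inner_add_right]

theorem en_sub (T S : H →L[ℂ] H) (i j : ι) : en b (T - S) i j = en b T i j - en b S i j := by
  simp [en, inner_sub_right]

theorem en_zero (i j : ι) : en b 0 i j = 0 := by simp [en]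

theorem en_smul (c : ℂ) (T : H →L[ℂ] H) (i j : ι) : en b (c • T) i j = c * en b T i j := by
  simp [en]

theorem en_sum {κ : Type} (s : Finset κ) (T : κ → H →L[ℂ] H) (i j : ι) :
    en b (∑ k ∈ s, T k) i j = ∑ k ∈ s, en b (T k) i j := by
  simp [en, inner_sum]

theorem en_prl (S : Set ι) (T : H →L[ℂ] H) (i j : ι) :
    en b (pr b S * T) i j = if i ∈ S then en b T i j else 0 := inner_pr b S i _

theorem en_prr (S : Set ι) (T : H →L[ℂ] H) (i j : ι) :
    en b (T * pr b S) i j = if j ∈ S then en b T i j else 0 := by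
  simp only [en, ContinuousLinearMap.mul_apply, pr_b]
  split_ifs <;> simp

theorem en_rank (k l i j : ι) :
    en b (rankOne ℂ (b k) (b l)) i j = if i = k ∧ j = l then 1 else 0 := by
  simp only [en, rankOne_apply, inner_smul_right, bb]
  by_cases h1 : i = k <;> by_cases h2 : j = l <;> simp [h1, h2, @eq_comm _ l j]

theorem en_le (T : H →L[ℂ] H) (i j : ι) : ‖en b T i j‖ ≤ ‖T‖ := by
  refine (norm_inner_le_norm _ _).trans ?_
  rw [b.orthonormal.1, one_mul]
  simpa [b.orthonormal.1] using T.le_opNorm (b j)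

theorem orth {S : Set ι} {u v : H} (hu : pr b S u = u) (hv : pr b S v = 0) :
    ‖u + v‖ ^ 2 = ‖u‖ ^ 2 + ‖v‖ ^ 2 := by
  simp only [sq]
  refine norm_add_sq_eq_norm_sq_add_norm_sq_of_inner_eq_zero (𝕜 := ℂ) _ _ ?_
  rw [← hu, pr_inner, hv, inner_zero_right]

theorem pyth (S : Set ι) (u : H) : ‖u‖ ^ 2 = ‖pr b S u‖ ^ 2 + ‖pr b Sᶜ u‖ ^ 2 := by
  rw [← orth b (S := S)]
  · congr 2
    refine ext_vec b fun i => ?_
    by_cases h : i ∈ S <;> simp [inner_add_right, inner_pr, h]
  · exact ext_vec b fun i => by by_cases h : i ∈ S <;> simp [inner_pr, h]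
  · exact ext_vec b fun i => by by_cases h : i ∈ S <;> simp [inner_pr, h]

theorem two_block (S : Set ι) {A B : H →L[ℂ] H} {ρ : ℝ}
    (hA : ∀ i j, i ∉ S ∨ j ∉ S → en b A i j = 0) (hB : ∀ i j, i ∈ S ∨ j ∈ S → en b B i j = 0)
    (h1 : ‖A‖ ≤ ρ) (h2 : ‖B‖ ≤ ρ) : ‖A + B‖ ≤ ρ := by
  have h0 : 0 ≤ ρ := (norm_nonneg _).trans h1
  have e1 : pr b S * A = A := ext_op b fun i j => by
    rw [en_prl]; split_ifs with h; exacts [rfl, (hA i j (Or.inl h)).symm]
  have e2 : A * pr b S = A := ext_op b fun i j => by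
    rw [en_prr]; split_ifs with h; exacts [rfl, (hA i j (Or.inr h)).symm]
  have e3 : pr b S * B = 0 := ext_op b fun i j => by
    rw [en_prl, en_zero]; split_ifs with h; exacts [hB i j (Or.inl h), rfl]
  have e4 : B * pr b Sᶜ = B := ext_op b fun i j => by
    rw [en_prr]; split_ifs with h; exacts [rfl, (hB i j (Or.inr (not_not.1 h))).symm]
  refine ContinuousLinearMap.opNorm_le_bound _ h0 fun u => ?_
  refine (pow_le_pow_iff_left₀ (by positivity) (by positivity) two_ne_zero).1 ?_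
  rw [ContinuousLinearMap.add_apply, orth b (u := A u) (v := B u) (DFunLike.congr_fun e1 u) (DFunLike.congr_fun e3 u),
    mul_pow, pyth b S u, mul_add, ← mul_pow, ← mul_pow]
  have e5 : ‖A u‖ ≤ ρ * ‖pr b S u‖ := by
    rw [← DFunLike.congr_fun e2 u]; exact A.le_of_opNorm_le h1 _
  have e6 : ‖B u‖ ≤ ρ * ‖pr b Sᶜ u‖ := by
    rw [← DFunLike.congr_fun e4 u]; exact B.le_of_opNorm_le h2 _
  gcongr

theorem chain_left (F : ℕ → Finset ι) (w : ℕ → H →L[ℂ] H) (θ : ℕ → ℂ)
    (h : ∀ i, F i ⊆ F (i + 1) ∧ ‖w i‖ ≤ 1 ∧ pr b (↑(F (i + 1)) \ ↑(F i)) * w i = w i)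
    (hθ : ∀ i, ‖θ i‖ = 1) (m : ℕ) : ‖∑ i ∈ Finset.range m, θ i • w i‖ ≤ √m := by
  refine ContinuousLinearMap.opNorm_le_bound _ (by positivity) fun u => ?_
  refine (pow_le_pow_iff_left₀ (by positivity) (by positivity) two_ne_zero).1 ?_
  rw [mul_pow, Real.sq_sqrt (by positivity)]
  suffices pr b (F m) ((∑ i ∈ Finset.range m, θ i • w i) u) = (∑ i ∈ Finset.range m, θ i • w i) u ∧
    ‖(∑ i ∈ Finset.range m, θ i • w i) u‖ ^ 2 ≤ m * ‖u‖ ^ 2 from this.2
  induction m with
  | zero => simp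
  | succ m ih =>
    have e := DFunLike.congr_fun (h m).2.2 u
    rw [ContinuousLinearMap.mul_apply] at e
    rw [Finset.sum_range_succ, ContinuousLinearMap.add_apply, ContinuousLinearMap.smul_apply]
    constructor
    · rw [← ih.1, ← e]
      refine ext_vec b fun i => ?_
      by_cases h1 : i ∈ F (m + 1)
      · simp [inner_pr, h1]
      · simp [inner_pr, inner_add_right, h1, mt (@(h m).1 i) h1]
    · rw [orth b ih.1]
      · have : ‖θ m • w m u‖ ≤ ‖u‖ := by
          rw [norm_smul, hθ, one_mul]; simpa using (w m).le_of_opNorm_le (h m).2.1 u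
        have := pow_le_pow_left₀ (norm_nonneg _) this 2
        rw [Nat.cast_succ]; linarith [ih.2]
      · rw [← e]
        exact ext_vec b fun i => by by_cases h1 : i ∈ F m <;> simp [inner_pr, h1]

theorem pr_fin (F : Finset ι) : pr b F = ∑ i ∈ F, rankOne ℂ (b i) (b i) := by
  refine ext_op b fun i j => ?_
  rw [← mul_one (pr b F), en_prl, en_sum]
  simp only [en_rank]
  simp only [en, ContinuousLinearMap.one_apply, bb]
  by_cases h : i = j
  · simp [h]
  · rw [Finset.sum_eq_zero fun k _ => if_neg fun h' => h (h'.1.trans h'.2.symm)]; simp [h]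

theorem rank_cpt (u v : H) : IsCompactOperator (rankOne ℂ u v) :=
  (isCompactOperator_of_locallyCompactSpace_dom (innerSL ℂ v)).clm_comp
    (ContinuousLinearMap.toSpanSingleton ℂ u)

theorem pr_cpt (F : Finset ι) : IsCompactOperator (pr b F) := by
  rw [pr_fin]
  exact Submodule.sum_mem (compactOperator (RingHom.id ℂ) H H) fun i _ => rank_cpt _ _

theorem pr_tail (y : H) : Tendsto (fun F : Finset ι => pr b (↑F)ᶜ y) atTop (𝓝 0) := by
  have h := (tendsto_const_nhds (x := y)).sub (b.hasSum_repr y)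
  rw [sub_self] at h
  refine h.congr fun F => ext_vec b fun i => ?_
  have := congrArg (inner ℂ (b i)) (DFunLike.congr_fun (pr_fin b F) y)
  simp only [ContinuousLinearMap.sum_apply, rankOne_apply] at this
  simp only [b.repr_apply_apply, inner_sub_right, ← this, inner_pr]
  by_cases h : i ∈ F <;> simp [h]

theorem left_tail {T : H →L[ℂ] H} (hT : IsCompactOperator T) {ε : ℝ} (hε : 0 < ε) :
    ∀ᶠ F : Finset ι in atTop, ‖pr b (↑F)ᶜ * T‖ ≤ ε := by
  obtain ⟨K, hK, h⟩ := hT.image_closedBall_subset_compact (f := (T : H →ₗ[ℂ] H)) 1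
  have : ∀ᶠ F : Finset ι in atTop, ∀ y ∈ K, ‖pr b (↑F)ᶜ y‖ ≤ ε := by
    refine hK.induction_on (p := fun s => ∀ᶠ F : Finset ι in atTop, ∀ y ∈ s, ‖pr b (↑F)ᶜ y‖ ≤ ε)
      (by simp) (fun s t hst ht => ht.mono fun F hF y hy => hF y (hst hy))
      (fun s t hs ht => (hs.and ht).mono fun F hF y hy => hy.elim (hF.1 y) (hF.2 y)) fun x _ => ?_
    refine ⟨_, mem_nhdsWithin_of_mem_nhds (Metric.ball_mem_nhds x (half_pos hε)), ?_⟩
    filter_upwards [(pr_tail b x).eventually (Metric.ball_mem_nhds 0 (half_pos hε))] with F hF y hy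
    have h1 := pr_le b (↑F)ᶜ (y - x)
    have h2 := norm_sub_norm_le (pr b (↑F)ᶜ y) (pr b (↑F)ᶜ x)
    rw [mem_ball_iff_norm] at hy
    rw [dist_zero_right] at hF
    rw [map_sub] at h1
    linarith
  filter_upwards [this] with F hF
  exact ContinuousLinearMap.opNorm_le_of_unit_norm hε.le fun u hu =>
    hF _ (h ⟨u, by simp [hu], rfl⟩)

theorem mul_le_l (S : Set ι) (T : H →L[ℂ] H) : ‖pr b S * T‖ ≤ ‖T‖ :=
  (norm_mul_le _ _).trans (mul_le_of_le_one_left (norm_nonneg _) (pr_norm b S))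

theorem mul_le_r (S : Set ι) (T : H →L[ℂ] H) : ‖T * pr b S‖ ≤ ‖T‖ :=
  (norm_mul_le _ _).trans (mul_le_of_le_one_right (norm_nonneg _) (pr_norm b S))

theorem right_tail {T : H →L[ℂ] H} (hT : IsCompactOperator T) {ε : ℝ} (hε : 0 < ε) :
    ∀ᶠ F : Finset ι in atTop, ‖T * pr b (↑F)ᶜ‖ ≤ ε := by
  obtain ⟨G, hG⟩ := (left_tail b hT (half_pos hε)).exists
  filter_upwards [left_tail b (T := star T * pr b G) ((pr_cpt b G).clm_comp (star T)) (half_pos hε)]
    with F hF
  rw [← norm_star, star_mul, star_mul, pr_star, pr_star, star_star] at hF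
  have : T * pr b (↑F)ᶜ = pr b G * T * pr b (↑F)ᶜ + pr b (↑G)ᶜ * T * pr b (↑F)ᶜ :=
    ext_op b fun i j => by by_cases h : i ∈ G <;> simp [en_add, en_prl, en_prr, h]
  rw [this]
  linarith [norm_add_le (pr b G * T * pr b (↑F)ᶜ) (pr b (↑G)ᶜ * T * pr b (↑F)ᶜ),
    mul_le_r b (↑F)ᶜ (pr b (↑G)ᶜ * T)]

theorem win_eq (F : Finset ι) (T : H →L[ℂ] H) :
    pr b F * T * pr b F = ∑ i ∈ F, ∑ j ∈ F, en b T i j • rankOne ℂ (b i) (b j) := by
  refine ext_op b fun i j => ?_
  by_cases h : i ∈ F <;> simp [en_prl, en_prr, en_sum, en_smul, en_rank, ite_and, h]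

end Pool.Agent.H.MP_af3abc_an
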