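import Mathlib
import Pool.Agent.H.MP_af3abc_an.A

set_option autoImplicit false

namespace Pool.Agent.H.MP_af3abc_an

open Set Filter Topology InnerProductSpace Pool.Agent.H.MP_ca490d_an
open scoped ENNReal Classical

section General

variable {X : Type} [NormedAddCommGroup X] [NormedSpace ℂ X]

theorem uf_of_closure {κ : Type} {f : κ → X} {z : WeakDual ℂ (StrongDual ℂ X)}
    (hz : z ∈ closure (bid '' range f)) :
    ∃ U : Ultrafilter κ, ∀ φ : StrongDual ℂ X, Tendsto (fun a => φ (f a)) U (𝓝 (z φ)) := by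
  rw [← range_comp] at hz
  haveI : (comap (bid ∘ f) (𝓝 z)).NeBot := comap_neBot fun t ht => by
    obtain ⟨_, h1, a, rfl⟩ := mem_closure_iff_nhds.1 hz t ht
    exact ⟨a, h1⟩
  exact ⟨Ultrafilter.of (comap (bid ∘ f) (𝓝 z)),
    tendsto_bid (tendsto_comap.mono_left (Ultrafilter.of_le _))⟩

theorem cpt_closure {A : Set X} (hA : Bornology.IsBounded A) : IsCompact (closure (bid '' A)) := by
  obtain ⟨C, hC⟩ := hA.exists_norm_le
  refine (WeakDual.isCompact_closedBall (0 : StrongDual ℂ (StrongDual ℂ X)) C).closure_of_subset ?_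
  rintro _ ⟨a, ha, rfl⟩
  simpa [bid] using (NormedSpace.double_dual_bound ℂ X a).trans (hC a ha)

theorem distX_bid (g : X) : distX (bid g) = 0 :=
  Metric.infEDist_zero_of_mem ⟨g, rfl⟩

theorem le_distX {z : WeakDual ℂ (StrongDual ℂ X)} {r : ℝ}
    (h : ∀ g : X, ∀ ε, 0 < ε → ∃ φ : StrongDual ℂ X, ‖φ‖ ≤ 1 ∧ r ≤ ‖z φ‖ ∧ ‖φ g‖ ≤ ε) :
    ENNReal.ofReal r ≤ distX z := by
  refine Metric.le_infEDist.2 ?_
  rintro _ ⟨g, rfl⟩
  rw [edist_dist, dist_eq_norm]
  refine ENNReal.ofReal_le_ofReal (le_of_forall_pos_le_add fun ε hε => ?_)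
  obtain ⟨φ, h1, h2, h3⟩ := h g ε hε
  have h4 : ‖z φ - φ g‖ ≤ _ :=
    (WeakDual.toStrongDual z - NormedSpace.inclusionInDoubleDual ℂ X g).unit_le_opNorm φ h1
  linarith [norm_sub_norm_le (z φ) (φ g)]

theorem wk_le_omega (A : Set X) : wk A ≤ omega A := by
  refine iSup₂_le fun z hz => le_iInf₂ fun L hL => ENNReal.le_of_forall_pos_le_add fun ε hε h0 => ?_
  have h1 : ∀ a : A, ∃ g : L, edist a.1 g.1 < (⨆ a ∈ A, Metric.infEDist a L) + ε := fun a => by
    obtain ⟨g, hg, h⟩ := Metric.infEDist_lt_iff.1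
      ((le_iSup₂ (f := fun a (_ : a ∈ A) => Metric.infEDist a L) a.1 a.2).trans_lt
        (ENNReal.lt_add_right h0.ne (ENNReal.coe_ne_zero.2 hε.ne')))
    exact ⟨⟨g, hg⟩, h⟩
  choose G hG using h1
  obtain ⟨U, hU⟩ := uf_of_closure (f := fun a : A => a.1) (by rwa [Subtype.range_coe])
  obtain ⟨g, hg⟩ := weak_lim hL U G
  have h2 : (⨆ a ∈ A, Metric.infEDist a L) + ε ≠ ⊤ := ENNReal.add_ne_top.2 ⟨h0.ne, by simp⟩
  rw [← ENNReal.ofReal_toReal h2] at hG ⊢
  refine distX_le ENNReal.toReal_nonneg g fun φ =>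
    le_of_tendsto' ((hU φ).sub (hg φ)).norm fun a => ?_
  rw [← map_sub, mul_comm]
  exact φ.le_opNorm_of_le (by simpa only [edist_lt_ofReal, dist_eq_norm] using hG a : _ < _).le

theorem wck_le_wk {A : Set X} (hA : Bornology.IsBounded A) : wck A ≤ wk A := by
  refine iSup₂_le fun x hx => ?_
  obtain ⟨z, hz, h⟩ := (cpt_closure hA).exists_mapClusterPt (f := atTop) (u := bid ∘ x) (by
    rw [le_principal_iff, mem_map]
    exact univ_mem' fun n => subset_closure ⟨_, hx n, rfl⟩)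
  exact (iInf₂_le z h).trans (le_iSup₂ (f := fun z (_ : z ∈ closure (bid '' A)) => distX z) z hz)

theorem omega_le {A : Set X} (g : A → X) (hb : Bornology.IsBounded (range g)) {ρ : ℝ}
    (h : ∀ a : A, ‖a.1 - g a‖ ≤ ρ) (hc : ∀ z ∈ closure (bid '' range g), ∃ x, z = bid x) :
    omega A ≤ ENNReal.ofReal ρ := by
  refine (iInf₂_le (bid ⁻¹' closure (bid '' range g)) ?_).trans (iSup₂_le fun a ha => ?_)
  · have hi : IsInducing fun x : WeakSpace ℂ X => bid ((toWeakSpace ℂ X).symm x) := by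
      refine IsInducing.of_comp (g := fun (z : WeakDual ℂ (StrongDual ℂ X)) φ => z φ)
        (WeakDual.continuous_of_continuous_eval fun φ =>
          WeakBilin.eval_continuous (topDualPairing ℂ X).flip φ) WeakDual.coeFn_continuous ⟨rfl⟩
    refine hi.isCompact_iff.2 ?_
    convert cpt_closure hb
    ext z
    constructor
    · rintro ⟨_, ⟨x, hx, rfl⟩, rfl⟩; exact hx
    · intro hz
      obtain ⟨x, rfl⟩ := hc z hz
      exact ⟨_, ⟨x, hz, rfl⟩, rfl⟩
  · have : g ⟨a, ha⟩ ∈ bid ⁻¹' closure (bid '' range g) :=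
      subset_closure (mem_image_of_mem _ (mem_range_self _))
    refine (Metric.infEDist_le_edist_of_mem this).trans ?_
    rw [edist_dist, dist_eq_norm]
    exact ENNReal.ofReal_le_ofReal (h ⟨a, ha⟩)

end General

def KH (H : Type) [NormedAddCommGroup H] [InnerProductSpace ℂ H] : Type :=
  compactOperator (RingHom.id ℂ) H H

variable {H : Type} [NormedAddCommGroup H] [InnerProductSpace ℂ H] [CompleteSpace H] {ι : Type}
  (b : HilbertBasis ι ℂ H)

noncomputable instance : NormedAddCommGroup (KH H) :=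
  inferInstanceAs (NormedAddCommGroup (compactOperator (RingHom.id ℂ) H H))

noncomputable instance : NormedSpace ℂ (KH H) :=
  inferInstanceAs (NormedSpace ℂ (compactOperator (RingHom.id ℂ) H H))

noncomputable def vl : KH H →L[ℂ] H →L[ℂ] H := (compactOperator (RingHom.id ℂ) H H).subtypeL

def mk (T : H →L[ℂ] H) (h : IsCompactOperator T) : KH H := ⟨T, h⟩

theorem vl_mk (T : H →L[ℂ] H) (h : IsCompactOperator T) : vl (mk T h) = T := rfl

theorem norm_vl (T : KH H) : ‖vl T‖ = ‖T‖ := rfl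

theorem vl_cpt (T : KH H) : IsCompactOperator (vl T) := T.2

theorem ext_K {T S : KH H} (h : ∀ i j, en b (vl T) i j = en b (vl S) i j) : T = S :=
  Subtype.ext (ext_op b h)

noncomputable def ent0 (v u : H) : StrongDual ℂ (KH H) :=
  (innerSL ℂ v).comp ((ContinuousLinearMap.apply ℂ H u).comp vl)

noncomputable def entL : H →L⋆[ℂ] H →L[ℂ] StrongDual ℂ (KH H) :=
  (LinearMap.mk₂'ₛₗ (starRingEnd ℂ) (RingHom.id ℂ) (ent0 (H := H))
    (fun _ _ _ => by ext; simp [ent0])
    (fun _ _ _ => by ext; simp [ent0]) (fun _ _ _ => by ext; simp [ent0])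
    (fun _ _ _ => by ext; simp [ent0])).mkContinuous₂ 1 fun v u => by
      refine ContinuousLinearMap.opNorm_le_bound _ (by positivity) fun T => ?_
      refine (norm_inner_le_norm (𝕜 := ℂ) v (vl T u)).trans ?_
      rw [one_mul, mul_assoc, mul_comm ‖u‖]
      exact mul_le_mul_of_nonneg_left ((vl T).le_opNorm u) (norm_nonneg _)

noncomputable def ent (i j : ι) : StrongDual ℂ (KH H) := ent0 (b i) (b j)

theorem ent_apply (i j : ι) (T : KH H) : ent b i j T = en b (vl T) i j := rfl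

theorem exists_op (z : WeakDual ℂ (StrongDual ℂ (KH H))) :
    ∃ G : H →L[ℂ] H, ∀ i j, en b G i j = z (ent b i j) := by
  refine ⟨ContinuousLinearMap.adjoint (continuousLinearMapOfBilin
    ((ContinuousLinearMap.compL ℂ H _ ℂ (WeakDual.toStrongDual z)).comp entL)), fun i j => ?_⟩
  rw [en, ContinuousLinearMap.adjoint_inner_right, continuousLinearMapOfBilin_apply]
  rfl

noncomputable def E (i j : ι) : KH H := mk (rankOne ℂ (b i) (b j)) (rank_cpt _ _)

noncomputable def win (F : Finset ι) (T : H →L[ℂ] H) : KH H :=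
  mk (pr b F * T * pr b F) ((pr_cpt b F).clm_comp (pr b F * T))

theorem win_sum (F : Finset ι) (T : H →L[ℂ] H) :
    win b F T = ∑ i ∈ F, ∑ j ∈ F, en b T i j • E b i j :=
  ext_K b (by simp [win, win_eq, E, vl_mk])

theorem win_le (F : Finset ι) (T : H →L[ℂ] H) : ‖win b F T‖ ≤ ‖pr b F * T‖ := mul_le_r b _ _

noncomputable def cut (F : Finset ι) (φ : StrongDual ℂ (KH H)) : StrongDual ℂ (KH H) :=
  ∑ i ∈ F, ∑ j ∈ F, φ (E b i j) • ent b i j

theorem cut_apply (F : Finset ι) (φ : StrongDual ℂ (KH H)) (T : KH H) :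
    cut b F φ T = φ (win b F (vl T)) := by
  simp [cut, win_sum, ent_apply, mul_comm]

theorem shrink0 (M : Set ι → KH H → KH H) (h1 : ∀ S T, ‖M S T‖ ≤ ‖T‖)
    (h2 : ∀ S S' T, M S (M S' T) = M (S ∩ S') T) (h3 : ∀ S T, M S T + M Sᶜ T = T)
    (h4 : ∀ T ε, 0 < ε → ∀ᶠ F : Finset ι in atTop, ‖M (↑F)ᶜ T‖ ≤ ε)
    (h5 : ∀ (F : ℕ → Finset ι) (w : ℕ → KH H) (θ : ℕ → ℂ),
      (∀ i, F i ⊆ F (i + 1) ∧ ‖w i‖ ≤ 1 ∧ M (↑(F (i + 1)) \ ↑(F i)) (w i) = w i) →
      (∀ i, ‖θ i‖ = 1) → ∀ m, ‖∑ i ∈ Finset.range m, θ i • w i‖ ≤ √m)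
    (φ : StrongDual ℂ (KH H)) {ε : ℝ} (hε : 0 < ε) :
    ∀ᶠ F : Finset ι in atTop, ∀ T, ‖T‖ ≤ 1 → ‖φ (M (↑F)ᶜ T)‖ ≤ ε := by
  obtain ⟨d, hd⟩ := small_of_chain (fun (F : Finset ι) w F' => F ⊆ F' ∧ ‖w‖ ≤ 1 ∧
    M (↑F' \ ↑F) w = w) (fun m => √m) (fun δ hδ => by
      obtain ⟨m, hm⟩ := exists_nat_gt (1 / δ ^ 2)
      have h0 : (0 : ℝ) < m := lt_trans (by positivity) hm
      refine ⟨m, Real.sqrt_lt' (by positivity) |>.2 ?_⟩
      rw [div_lt_iff₀ (by positivity)] at hm
      nlinarith) h5 φ hε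
  filter_upwards [eventually_ge_atTop d] with F hF T hT
  refine le_of_forall_pos_le_add fun δ hδ => ?_
  obtain ⟨G, h6, h7⟩ := ((eventually_ge_atTop d).and
    (h4 (M (↑F)ᶜ T) _ (show 0 < δ / (‖φ‖ + 1) by positivity))).exists
  rw [← h3 G (M (↑F)ᶜ T), map_add]
  refine norm_add_le_of_le (hd _ G ⟨h6, (h1 _ _).trans ((h1 _ _).trans hT), ?_⟩) ?_
  · rw [h2, h2, h2]
    congr 1
    ext i
    have := @hF i
    simp only [mem_inter_iff, mem_diff, Finset.mem_coe, mem_compl_iff]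
    tauto
  · refine (φ.le_opNorm_of_le h7).trans ?_
    rw [mul_div_assoc', div_le_iff₀ (by positivity)]
    nlinarith

noncomputable def ML (S : Set ι) (T : KH H) : KH H :=
  mk (pr b S * vl T) ((vl_cpt T).clm_comp (pr b S))

noncomputable def MR (S : Set ι) (T : KH H) : KH H :=
  mk (vl T * pr b S) ((vl_cpt T).comp_clm (pr b S))

theorem shrink (φ : StrongDual ℂ (KH H)) {ε : ℝ} (hε : 0 < ε) :
    ∀ᶠ F : Finset ι in atTop, ‖φ - cut b F φ‖ ≤ ε := by
  have hl := shrink0 (ML b) (fun S T => mul_le_l b S (vl T))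
    (fun S S' T => ext_K b fun i j => by simp [ML, en_prl, ite_and, vl_mk])
    (fun S T => ext_K b fun i j => by by_cases h : i ∈ S <;> simp [ML, en_prl, en_add, h, vl_mk])
    (fun T ε hε => left_tail b (vl_cpt T) hε) (fun F w θ h hθ m => by
      rw [← norm_vl]
      simpa using chain_left b F (fun i => vl (w i)) θ
        (fun i => ⟨(h i).1, (h i).2.1, congrArg vl (h i).2.2⟩) hθ m) φ (half_pos hε)
  have hr := shrink0 (MR b) (fun S T => mul_le_r b S (vl T))
    (fun S S' T => ext_K b fun i j => by simp [MR, en_prr, ite_and, vl_mk])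
    (fun S T => ext_K b fun i j => by by_cases h : j ∈ S <;> simp [MR, en_prr, en_add, h, vl_mk])
    (fun T ε hε => right_tail b (vl_cpt T) hε) (fun F w θ h hθ m => by
      have := chain_left b F (fun i => star (vl (w i))) (fun i => star (θ i))
        (fun i => ⟨(h i).1, by rw [norm_star]; exact (h i).2.1, by
          have : vl (w i) * pr b _ = vl (w i) := congrArg vl (h i).2.2
          rw [← pr_star, ← star_mul, this]⟩)
        (by simpa using hθ) m
      simp only [← star_smul, ← star_sum, norm_star] at this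
      rw [← norm_vl]
      simpa using this) φ (half_pos hε)
  filter_upwards [hl, hr] with F h1 h2
  refine ContinuousLinearMap.opNorm_le_of_unit_norm hε.le fun T hT => ?_
  have : T - win b F (vl T) = ML b (↑F)ᶜ (MR b F T) + MR b (↑F)ᶜ T :=
    ext_K b fun i j => by
      by_cases h : i ∈ F <;> by_cases h' : j ∈ F <;>
        simp [ML, MR, win, en_prl, en_prr, en_add, en_sub, h, h', vl_mk]
  rw [ContinuousLinearMap.sub_apply, cut_apply, ← map_sub, this, map_add, ← add_halves ε]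
  exact norm_add_le_of_le (h1 _ ((mul_le_r b _ (vl T)).trans hT.le)) (h2 _ hT.le)

theorem z_cut (z : WeakDual ℂ (StrongDual ℂ (KH H))) (F : Finset ι) (φ : StrongDual ℂ (KH H)) :
    z (cut b F φ) = ∑ i ∈ F, ∑ j ∈ F, φ (E b i j) * z (ent b i j) := by
  simp [cut]

theorem z_ext {z z' : WeakDual ℂ (StrongDual ℂ (KH H))}
    (h : ∀ i j, z (ent b i j) = z' (ent b i j)) : z = z' := by
  refine DFunLike.ext _ _ fun φ => ?_
  refine (isClosed_eq (map_continuous z) (map_continuous z')).closure_subset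
    (Metric.mem_closure_iff.2 fun ε hε => ?_)
  obtain ⟨F, hF⟩ := (shrink b φ (half_pos hε)).exists
  refine ⟨cut b F φ, ?_, by rw [dist_eq_norm]; linarith⟩
  simp only [mem_ofPred_eq, z_cut, h]

theorem z_fin {z : WeakDual ℂ (StrongDual ℂ (KH H))} (F : Finset ι)
    (h : ∀ i j, i ∉ F → j ∉ F → z (ent b i j) = 0) : ∃ g, z = bid g := by
  obtain ⟨G, hG⟩ := exists_op b z
  refine ⟨mk (pr b F * G + pr b (↑F)ᶜ * G * pr b F) (((pr_cpt b F).comp_clm G).add
    ((pr_cpt b F).clm_comp (pr b (↑F)ᶜ * G))), z_ext b fun i j => ?_⟩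
  change _ = en b (pr b F * G + pr b (↑F)ᶜ * G * pr b F) i j
  have := h i j
  by_cases h1 : i ∈ F <;> by_cases h2 : j ∈ F <;> simp_all [en_prl, en_prr, en_add]

end Pool.Agent.H.MP_af3abc_an
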