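import Mathlib
import Pool.Agent.H.MP_af3abc_an.B

set_option autoImplicit false

namespace Pool.Agent.H.MP_af3abc_an

open Set Filter Topology InnerProductSpace Pool.Agent.H.MP_ca490d_an
open scoped ENNReal Classical

variable {H : Type} [NormedAddCommGroup H] [InnerProductSpace ℂ H] [CompleteSpace H] {ι : Type}
  (b : HilbertBasis ι ℂ H)

theorem win_mono {F F' : Finset ι} (h : F ⊆ F') (T : H →L[ℂ] H) : ‖win b F T‖ ≤ ‖win b F' T‖ := by
  have : win b F T = win b F (vl (win b F' T)) := ext_K b fun i j => by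
    have := @h i
    have := @h j
    by_cases h1 : i ∈ F <;> by_cases h2 : j ∈ F <;> simp_all [win, vl_mk, en_prl, en_prr]
  rw [this]
  exact (win_le b _ _).trans (mul_le_l b _ _)

theorem win_approx (T : KH H) {ε : ℝ} (hε : 0 < ε) :
    ∀ᶠ F : Finset ι in atTop, ‖T - win b F (vl T)‖ ≤ ε := by
  filter_upwards [left_tail b (vl_cpt T) (half_pos hε), right_tail b (vl_cpt T) (half_pos hε)]
    with F h1 h2
  have : T - win b F (vl T) = MR b F (ML b (↑F)ᶜ T) + MR b (↑F)ᶜ T :=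
    ext_K b fun i j => by
      by_cases h : i ∈ F <;> by_cases h' : j ∈ F <;>
        simp [ML, MR, win, en_prl, en_prr, en_add, en_sub, h, h', vl_mk]
  rw [this, ← add_halves ε]
  exact norm_add_le_of_le ((mul_le_r b _ _).trans h1) h2

theorem cut_le (F : Finset ι) (φ : StrongDual ℂ (KH H)) : ‖cut b F φ‖ ≤ ‖φ‖ :=
  ContinuousLinearMap.opNorm_le_bound _ (norm_nonneg _) fun T => by
    rw [cut_apply]
    exact φ.le_opNorm_of_le ((win_le b _ _).trans (mul_le_l b _ _))

variable {r : ι → ℕ} {Fn : ℕ → Finset ι}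

theorem Fn_tendsto (hF : ∀ n i, i ∈ Fn n ↔ r i < n) : Tendsto Fn atTop atTop :=
  tendsto_atTop.2 fun G => by
    filter_upwards [eventually_gt_atTop (G.sup r)] with n hn i hi
    exact (hF n i).2 ((Finset.le_sup hi).trans_lt hn)

theorem cutting (hF : ∀ n i, i ∈ Fn n ↔ r i < n) (T : KH H) {ρ : ℝ} (hρ : 0 < ρ) (m : ℕ) :
    ∃ (h : KH H) (C : Set ℕ), ‖h‖ ≤ ρ ∧ (∀ i j, r i < m ∨ r j < m → en b (vl h) i j = 0) ∧
      (∀ i j, m ≤ r i → m ≤ r j → (∀ c ∈ C, (c < r i ∧ c < r j) ∨ (r i < c ∧ r j < c)) →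
        en b (vl h) i j = en b (vl T) i j) ∧
      (∀ c ∈ C, m ≤ c ∧ ρ < ‖win b (Fn (c + 1) \ Fn m) (vl T)‖) ∧
      ∀ c ∈ C, ∀ c' ∈ C, c < c' → ρ < ‖win b (Fn (c' + 1) \ Fn c) (vl T)‖ := by
  obtain ⟨N, hN⟩ := eventually_atTop.1 ((Fn_tendsto hF).eventually (left_tail b (vl_cpt T) hρ))
  obtain ⟨k, hk⟩ : ∃ k, N ≤ m + k := ⟨N, by omega⟩
  induction k generalizing m with
  | zero =>
    refine ⟨MR b (↑(Fn m))ᶜ (ML b (↑(Fn m))ᶜ T), ∅, (mul_le_r b _ _).trans (hN m hk), ?_, ?_,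
      by simp, by simp⟩
    · rintro i j (h | h) <;> simp [ML, MR, vl_mk, en_prl, en_prr, hF, h]
    · intro i j h1 h2 _; simp [ML, MR, vl_mk, en_prl, en_prr, hF, h1, h2]
  | succ k ih =>
    by_cases h0 : ‖MR b (↑(Fn m))ᶜ (ML b (↑(Fn m))ᶜ T)‖ ≤ ρ
    · refine ⟨MR b (↑(Fn m))ᶜ (ML b (↑(Fn m))ᶜ T), ∅, h0, ?_, ?_, by simp, by simp⟩
      · rintro i j (h | h) <;> simp [ML, MR, vl_mk, en_prl, en_prr, hF, h]
      · intro i j h1 h2 _; simp [ML, MR, vl_mk, en_prl, en_prr, hF, h1, h2]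
    have hq : ∃ q, ρ < ‖win b (Fn q \ Fn m) (vl T)‖ := by
      obtain ⟨q, hq⟩ := ((Fn_tendsto hF).eventually (win_approx b (MR b (↑(Fn m))ᶜ
        (ML b (↑(Fn m))ᶜ T)) (half_pos (sub_pos.2 (not_le.1 h0))))).exists
      have : win b (Fn q) (vl (MR b (↑(Fn m))ᶜ (ML b (↑(Fn m))ᶜ T))) =
          win b (Fn q \ Fn m) (vl T) := ext_K b fun i j => by
        by_cases h1 : i ∈ Fn q <;> by_cases h2 : j ∈ Fn q <;> by_cases h3 : i ∈ Fn m <;>
          by_cases h4 : j ∈ Fn m <;> simp [ML, MR, win, vl_mk, en_prl, en_prr, h1, h2, h3, h4]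
      rw [this] at hq
      refine ⟨q, ?_⟩
      linarith [norm_sub_norm_le (MR b (↑(Fn m))ᶜ (ML b (↑(Fn m))ᶜ T)) (win b (Fn q \ Fn m) (vl T))]
    have hm : m < Nat.find hq := by
      by_contra hc
      have h1 := Nat.find_spec hq
      rw [Finset.sdiff_eq_empty_iff_subset.2 fun i hi => by rw [hF] at *; omega, win_sum] at h1
      simp at h1; linarith
    obtain ⟨c, hc⟩ : ∃ c, Nat.find hq = c + 1 := ⟨Nat.find hq - 1, by omega⟩
    have h1 := Nat.find_spec hq
    have h2 := not_lt.1 (Nat.find_min hq (show c < _ by omega))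
    rw [hc] at h1 hm
    obtain ⟨h, C, a1, a2, a3, a4, a5⟩ := ih (c + 1) (by omega)
    have e : ∀ i j, en b (vl (win b (Fn c \ Fn m) (vl T))) i j =
        if (m ≤ r i ∧ r i < c) ∧ (m ≤ r j ∧ r j < c) then en b (vl T) i j else 0 := fun i j => by
      by_cases h1 : m ≤ r i <;> by_cases h2 : r i < c <;> by_cases h3 : m ≤ r j <;>
        by_cases h4 : r j < c <;> simp [win, vl_mk, en_prl, en_prr, hF, h1, h2, h3, h4]
    refine ⟨win b (Fn c \ Fn m) (vl T) + h, insert c C, ?_, fun i j hij => ?_,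
      fun i j hi hj hij => ?_, ?_, ?_⟩
    · rw [← norm_vl, map_add]
      refine two_block b (Fn (c + 1)) (fun i j hij => ?_) (fun i j hij => a2 i j ?_) h2 a1
      · rw [e, if_neg]; simp only [Finset.mem_coe, hF] at hij; omega
      · simpa only [Finset.mem_coe, hF] using hij
    · rw [map_add, en_add, e, if_neg (by omega), a2 i j (by omega), add_zero]
    · rw [map_add, en_add, e]
      rcases hij c (mem_insert _ _) with h3 | h3
      · rw [if_neg (by omega), a3 i j (by omega) (by omega) fun c hc => hij c (Or.inr hc), zero_add]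
      · rw [if_pos (by omega), a2 i j (by omega), add_zero]
    · rintro c' (rfl | hc')
      · exact ⟨by omega, h1⟩
      · exact ⟨by have := (a4 c' hc').1; omega, (a4 c' hc').2.trans_le (win_mono b
          (fun i => by simp only [Finset.mem_sdiff, hF]; omega) _)⟩
    · rintro c1 (rfl | hc1) c2 (rfl | hc2) h12
      · omega
      · exact (a4 c2 hc2).2.trans_le (win_mono b
          (fun i => by simp only [Finset.mem_sdiff, hF]; omega) _)
      · have := (a4 c1 hc1).1; omega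
      · exact a5 c1 hc1 c2 hc2 h12

include b in
theorem omega_le_wk (hF : ∀ n i, i ∈ Fn n ↔ r i < n) {A : Set (KH H)}
    (hA : Bornology.IsBounded A) : omega A ≤ wk A := by
  refine le_of_forall_gt_imp_ge_of_dense fun t ht => ?_
  obtain ⟨ρ, -, hρ1, hρ2⟩ := ENNReal.lt_iff_exists_real_btwn.1 ht
  have hρ : 0 < ρ := ENNReal.ofReal_pos.1 ((zero_le).trans_lt hρ1)
  choose h C a1 a2 a3 a4 a5 using fun a : A => cutting b hF a.1 hρ 0
  obtain ⟨R, hR⟩ := hA.exists_norm_le
  refine (omega_le (fun a => a.1 - h a) (isBounded_iff_forall_norm_le.2 ⟨R + ρ, ?_⟩)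
    (fun a => by simpa using a1 a) fun z hz => ?_).trans hρ2.le
  · rintro _ ⟨a, rfl⟩
    exact norm_sub_le_of_le (hR a a.2) (a1 a)
  obtain ⟨U, hU⟩ := uf_of_closure hz
  obtain ⟨y, hy, hyU⟩ := (cpt_closure hA).ultrafilter_le_nhds (U.map (bid ∘ fun a : A => a.1)) (by
    rw [Ultrafilter.coe_map, le_principal_iff, mem_map]
    exact univ_mem' fun a => subset_closure ⟨_, a.2, rfl⟩)
  have hy' := tendsto_bid hyU
  have : ∃ M, ∀ c, M ≤ c → ∀ᶠ a in U, c ∉ C a := by
    by_contra hc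
    push Not at hc
    refine absurd (le_distX fun g ε hε => ?_) (not_le.2
      ((le_iSup₂ (f := fun z (_ : z ∈ closure (bid '' A)) => distX z) y hy).trans_lt hρ1))
    obtain ⟨N, hN⟩ := eventually_atTop.1 ((Fn_tendsto hF).eventually (left_tail b (vl_cpt g) hε))
    obtain ⟨c, hc1, hc2⟩ := hc N
    obtain ⟨c', hc3, hc4⟩ := hc (c + 1)
    let F := Fn (c' + 1) \ Fn c
    let V := ∑ i ∈ F, ∑ j ∈ F, y (ent b i j) • E b i j
    have hV : Tendsto (fun a : A => win b F (vl a.1)) U (𝓝 V) := by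
      simp only [win_sum]
      exact tendsto_finset_sum _ fun i _ => tendsto_finset_sum _ fun j _ =>
        (hy' (ent b i j)).smul_const _
    have hV' : ρ ≤ ‖V‖ := ge_of_tendsto hV.norm (by
      filter_upwards [hc2, hc4] with a h1 h2
      exact (a5 a c h1 c' h2 hc3).le)
    obtain ⟨φ, h1, h2⟩ := exists_dual_vector'' ℂ V
    refine ⟨cut b F φ, (cut_le b F φ).trans h1, ?_, ?_⟩
    · have : y (cut b F φ) = φ V := by simp [z_cut, V, mul_comm]
      rw [this, h2]; simpa using hV'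
    · rw [cut_apply]
      refine (φ.le_opNorm _).trans ((mul_le_of_le_one_left (norm_nonneg _) h1).trans
        ((win_le b _ _).trans (le_trans ?_ (hN c hc1))))
      have : pr b F * vl g = pr b F * (pr b (↑(Fn c))ᶜ * vl g) := ext_op b fun i j => by
        by_cases h : i ∈ Fn c <;> simp [F, en_prl, h]
      rw [this]
      exact mul_le_l b _ _
  obtain ⟨M, hM⟩ := this
  refine z_fin b (Fn M) fun i j hi hj => tendsto_nhds_unique (hU _)
    (tendsto_const_nhds.congr' ?_)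
  rw [hF, not_lt] at hi hj
  filter_upwards [(eventually_all_finset (Finset.Icc M (r i + r j))).2 fun c hc =>
    hM c (Finset.mem_Icc.1 hc).1] with a ha
  rw [ent_apply, map_sub, en_sub, a3 a i j (by omega) (by omega) fun c hc => ?_, sub_self]
  have := mt (ha c) (not_not.2 hc)
  rw [Finset.mem_Icc] at this
  omega

include b in
theorem wk_le_wck (hF : ∀ n i, i ∈ Fn n ↔ r i < n) (A : Set (KH H)) : wk A ≤ wck A := by
  refine iSup₂_le fun z hz => ?_
  obtain ⟨U, hU⟩ := uf_of_closure (f := fun a : A => a.1) (by rwa [Subtype.range_coe])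
  have : ∀ n : ℕ, ∃ a : A, ∀ i ∈ Fn n, ∀ j ∈ Fn n,
      dist (ent b i j a) (z (ent b i j)) < 1 / (n + 1) := fun n =>
    ((eventually_all_finset _).2 fun i _ => (eventually_all_finset _).2 fun j _ =>
      Metric.tendsto_nhds.1 (hU _) _ Nat.one_div_pos_of_nat).exists
  choose x hx using this
  refine le_trans (le_iInf₂ fun y hy => le_of_eq (congrArg _ (z_ext b fun i j => ?_)))
    (le_iSup₂_of_le (fun n => (x n).1) (fun n => (x n).2) le_rfl)
  have h1 := MapClusterPt.continuousAt_comp (WeakDual.eval_continuous (ent b i j)).continuousAt hy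
  refine (eq_of_nhds_neBot (ClusterPt.mono h1 ?_)).symm
  refine tendsto_iff_dist_tendsto_zero.2 (squeeze_zero' (Eventually.of_forall fun _ => dist_nonneg)
    ?_ tendsto_one_div_add_atTop_nhds_zero_nat)
  filter_upwards [eventually_gt_atTop (r i + r j)] with n hn
  exact (hx n i ((hF _ _).2 (by omega)) j ((hF _ _).2 (by omega))).le

end Pool.Agent.H.MP_af3abc_an
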