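import Mathlib
import Pool.Agent.H.MP_af3abc_an.C

set_option autoImplicit false

namespace Pool.Agent.H.MP_af3abc_an

open Set Filter Topology InnerProductSpace Pool.Agent.H.MP_ca490d_an
open scoped ENNReal Classical

section Comb

variable {Γ : Type} (code : Γ → ℕ → Bool) (s : ℕ)

def cell (N : ℕ) (t : Finset Γ) : Prop :=
  t.card = s ∧ ∀ x ∈ t, ∀ y ∈ t, ∀ n < N, code x n = code y n

theorem exists_cell {S : Set Γ} (hS : ¬ S.Countable) (N : ℕ) :
    ∃ t : Finset Γ, ↑t ⊆ S ∧ cell code s N t := by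
  have : ∃ y : Fin N → Bool, (S ∩ {x | (fun n : Fin N => code x n) = y}).Infinite := by
    by_contra hc
    push Not at hc
    exact hS ((finite_iUnion hc).subset fun x hx => mem_iUnion.2 ⟨_, hx, rfl⟩).countable
  obtain ⟨y, hy⟩ := this
  obtain ⟨t, h1, h2⟩ := hy.exists_subset_card_eq s
  exact ⟨t, fun x hx => (h1 hx).1, h2, fun x hx x' hx' n hn =>
    congrFun ((h1 hx).2.trans (h1 hx').2.symm) ⟨n, hn⟩⟩

def seg (j j' : ℕ) (x : ℕ → Γ) : Set (ℕ × Γ) := {p | j ≤ p.1 ∧ p.1 < j' ∧ p.2 = x p.1}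

def Kill (In : Set (ℕ × Γ) → Prop) (P : Set (ℕ × Γ)) (j : ℕ) : Prop :=
  ∃ j', ∀ N, ∃ t : ℕ → Finset Γ, (∀ i, cell code s N (t i)) ∧
    ∀ x : ℕ → Γ, (∀ i, j ≤ i → i < j' → x i ∈ t i) → ¬ In (P ∪ seg j j' x)

theorem kill_step [Uncountable Γ] {In : Set (ℕ × Γ) → Prop} (hI : ∀ P Q, P ⊆ Q → In Q → In P)
    {P : Set (ℕ × Γ)} {j : ℕ} (h : ∀ y j2, j < j2 → Kill code s In (insert (j, y) P) j2) :
    Kill code s In P j := by
  have : ∀ l : ℕ, ∃ (J : ℕ) (S : Set Γ), j < J ∧ ¬ S.Countable ∧ ∀ N, ∀ Y : Finset Γ, ↑Y ⊆ S → Y.card ≤ l →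
      ∃ t : ℕ → Finset Γ, (∀ i, cell code s N (t i)) ∧
        ∀ x : ℕ → Γ, (∀ i, j + 1 ≤ i → i < J → x i ∈ t i) → ∀ y ∈ Y,
          ¬ In (insert (j, y) P ∪ seg (j + 1) J x) := by
    intro l
    induction l with
    | zero =>
      refine ⟨j + 1, univ, by omega, not_countable_univ, fun N Y _ hY => ?_⟩
      obtain ⟨t, -, ht⟩ := exists_cell code s not_countable_univ N
      exact ⟨fun _ => t, fun _ => ht, by simp [Finset.card_eq_zero.1 (Nat.le_zero.1 hY)]⟩
    | succ l ih =>
      obtain ⟨J, S, h1, h2, h3⟩ := ih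
      choose w hw using fun y => h y J h1
      obtain ⟨J', hJ'⟩ : ∃ J', ¬ (S ∩ {y | w y = J'}).Countable := by
        by_contra hc
        push Not at hc
        exact h2 (Set.Countable.mono (fun x hx => by simpa using hx) (countable_iUnion hc))
      refine ⟨max J J', _, by omega, hJ', fun N Y hY hl => ?_⟩
      rcases Y.eq_empty_or_nonempty with rfl | ⟨y0, hy0⟩
      · obtain ⟨t, ht, -⟩ := h3 N ∅ (by simp) (by simp)
        exact ⟨t, ht, by simp⟩
      obtain ⟨t1, a1, a2⟩ := h3 N (Y.erase y0) (fun y hy => (hY (Finset.mem_of_mem_erase hy)).1)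
        (by rw [Finset.card_erase_of_mem hy0]; omega)
      obtain ⟨t2, a3, a4⟩ := hw y0 N
      rw [show w y0 = J' from (hY hy0).2] at a4
      refine ⟨fun i => if i < J then t1 i else t2 i, fun i => by dsimp only; split_ifs; exacts [a1 i, a3 i],
        fun x hx y hy hc => ?_⟩
      by_cases h0 : y = y0
      · refine a4 x (fun i hi hi' => ?_) (hI _ _ (union_subset_union (by rw [h0]) ?_) hc)
        · simpa [not_lt.2 hi] using hx i (by omega) (by omega)
        · exact fun p hp => ⟨by have := hp.1; omega, by have := hp.2.1; omega, hp.2.2⟩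
      · refine a2 x (fun i hi hi' => ?_) y (Finset.mem_erase.2 ⟨h0, hy⟩)
          (hI _ _ (union_subset_union_right _ ?_) hc)
        · simpa [hi'] using hx i hi (by omega)
        · exact fun p hp => ⟨hp.1, by have := hp.2.1; omega, hp.2.2⟩
  obtain ⟨J, S, h1, h2, h3⟩ := this s
  refine ⟨J, fun N => ?_⟩
  obtain ⟨Y, hY, hY'⟩ := exists_cell code s h2 N
  obtain ⟨t, a1, a2⟩ := h3 N Y hY hY'.1.le
  refine ⟨fun i => if i = j then Y else t i, fun i => by dsimp only; split_ifs; exacts [hY', a1 i],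
    fun x hx hc => a2 x (fun i hi hi' => ?_) (x j) (by simpa using hx j le_rfl h1) (hI _ _ ?_ hc)⟩
  · simpa [show i ≠ j by omega] using hx i (by omega) hi'
  · rintro p ((rfl | hp) | hp)
    · exact Or.inr ⟨le_rfl, h1, rfl⟩
    · exact Or.inl hp
    · exact Or.inr ⟨by have := hp.1; omega, hp.2⟩

theorem branch [Uncountable Γ] {In : Set (ℕ × Γ) → Prop} (hI : ∀ P Q, P ⊆ Q → In Q → In P)
    (h : ∀ k (t : ℕ → Finset Γ), (∀ i, cell code s k (t i)) →
      ∃ x : ℕ → Γ, (∀ i < k, x i ∈ t i) ∧ In (seg 0 k x)) :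
    ∃ p : ℕ → ℕ × Γ, StrictMono (fun n => (p n).1) ∧ ∀ m, In (p '' Iio m) := by
  have h0 : ¬ Kill code s In ∅ 0 := by
    rintro ⟨k, hk⟩
    obtain ⟨t, h1, h2⟩ := hk k
    obtain ⟨x, h3, h4⟩ := h k t h1
    exact h2 x (fun i _ => h3 i) (by rwa [empty_union])
  have h1 : ∀ q : {q : Set (ℕ × Γ) × ℕ // ¬ Kill code s In q.1 q.2}, ∃ y j2, q.1.2 < j2 ∧
      ¬ Kill code s In (insert (q.1.2, y) q.1.1) j2 := fun q => by
    by_contra hc
    push Not at hc
    exact q.2 (kill_step code s hI hc)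
  choose y j2 h2 h3 using h1
  let q : ℕ → {q : Set (ℕ × Γ) × ℕ // ¬ Kill code s In q.1 q.2} := fun n =>
    Nat.rec ⟨(∅, 0), h0⟩ (fun _ q => ⟨(_, _), h3 q⟩) n
  refine ⟨fun n => ((q n).1.2, y (q n)), strictMono_nat_of_lt_succ fun n => h2 (q n), fun m => ?_⟩
  have e : ∀ m, (fun n => ((q n).1.2, y (q n))) '' Iio m ⊆ (q m).1.1 := by
    intro m
    induction m with
    | zero => simp
    | succ m ih =>
      rintro _ ⟨n, hn, rfl⟩
      rcases Nat.lt_succ_iff_lt_or_eq.1 hn with h4 | rfl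
      · exact Or.inr (ih ⟨n, h4, rfl⟩)
      · exact Or.inl rfl
  by_contra hc
  refine (q m).2 ⟨0, fun N => ?_⟩
  obtain ⟨t, -, ht⟩ := exists_cell code s not_countable_univ N
  exact ⟨fun _ => t, fun _ => ht, fun x _ h5 => hc (hI _ _ ((e m).trans subset_union_left) h5)⟩

end Comb

variable {H : Type} [NormedAddCommGroup H] [InnerProductSpace ℂ H] [CompleteSpace H] {ι : Type}
  (b : HilbertBasis ι ℂ H) {Γ : Type} (e : ℕ × Γ → ι) (x0 : Γ)

noncomputable def Ts (k : ℕ) (t : ℕ → Finset Γ) : KH H :=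
  ∑ i ∈ Finset.range k, ∑ x ∈ t i, E b (e (i, x)) (e (i, x0))

theorem en_Ts (k : ℕ) (t : ℕ → Finset Γ) (i j : ι) : en b (vl (Ts b e x0 k t)) i j =
    ∑ l ∈ Finset.range k, ∑ x ∈ t l, if i = e (l, x) ∧ j = e (l, x0) then 1 else 0 := by
  simp only [Ts, map_sum, en_sum, E, vl_mk, en_rank]

variable {e}

theorem Ts_le (he : Function.Injective e) (k : ℕ) (t : ℕ → Finset Γ) {s : ℕ}
    (h : ∀ i, (t i).card ≤ s) : ‖Ts b e x0 k t‖ ≤ √s := by
  rw [← norm_vl]
  refine ContinuousLinearMap.opNorm_le_bound _ (by positivity) fun u => ?_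
  refine (pow_le_pow_iff_left₀ (by positivity) (by positivity) two_ne_zero).1 ?_
  rw [mul_pow, Real.sq_sqrt (by positivity)]
  have h1 : Orthonormal ℂ fun p : (_ : ℕ) × Γ => b (e (p.1, p.2)) :=
    b.orthonormal.comp _ (he.comp (Equiv.sigmaEquivProd ℕ Γ).injective)
  have h2 : Orthonormal ℂ fun i : ℕ => b (e (i, x0)) :=
    b.orthonormal.comp _ (he.comp (Prod.mk_left_injective x0))
  have h3 : vl (Ts b e x0 k t) u = ∑ p ∈ (Finset.range k).sigma t,
      inner ℂ (b (e (p.1, x0))) u • b (e (p.1, p.2)) := by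
    simp [Ts, E, vl_mk, Finset.sum_sigma]
  have h4 := h1.inner_sum (fun p => inner ℂ (b (e (p.1, x0))) u)
    (fun p => inner ℂ (b (e (p.1, x0))) u) ((Finset.range k).sigma t)
  rw [← h3, inner_self_eq_norm_sq_to_K] at h4
  simp only [Complex.conj_mul', Finset.sum_sigma, Finset.sum_const, nsmul_eq_mul] at h4
  have h5 : ‖vl (Ts b e x0 k t) u‖ ^ 2 =
      ∑ i ∈ Finset.range k, (t i).card * ‖inner ℂ (b (e (i, x0))) u‖ ^ 2 := by
    apply Complex.ofReal_injective
    push_cast
    exact h4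
  rw [h5]
  refine le_trans (Finset.sum_le_sum fun i _ => mul_le_mul_of_nonneg_right (Nat.cast_le.2 (h i))
    (by positivity)) ?_
  rw [← Finset.mul_sum]
  exact mul_le_mul_of_nonneg_left (h2.sum_inner_products_le u) (by positivity)

include b x0 in
theorem main_ns [Uncountable Γ] (he : Function.Injective e) (code : Γ → ℕ → Bool)
    (hc : Function.Injective code) (s : ℕ) :
    ∃ A : Set (KH H), Bornology.IsBounded A ∧ wk A ≤ 1 ∧ ENNReal.ofReal (√s / 2) ≤ omega A := by
  let f : {a : ℕ × (ℕ → Finset Γ) // ∀ i, cell code s a.1 (a.2 i)} → KH H := fun a =>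
    Ts b e x0 a.1.1 a.1.2
  have hf : ∀ a, ‖f a‖ ≤ √s := fun a => Ts_le b x0 he _ _ fun i => (a.2 i).1.le
  refine ⟨range f, isBounded_iff_forall_norm_le.2 ⟨_, forall_mem_range.2 hf⟩,
    iSup₂_le fun z hz => ?_, le_omega fun L hL σ hσ => not_lt.1 fun h0 => ?_⟩
  · obtain ⟨U, hU⟩ := uf_of_closure hz
    rcases uf_dich U fun a => a.1.1 with ⟨k, hk⟩ | hk
    · obtain ⟨g, rfl⟩ := z_fin b (z := z) ((Finset.range k).image fun i => e (i, x0))
        fun i j _ hj => tendsto_nhds_unique (hU _) (tendsto_const_nhds.congr' (by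
          filter_upwards [hk] with a ha
          rw [ent_apply, en_Ts, ha]
          exact (Finset.sum_eq_zero fun l hl => Finset.sum_eq_zero fun x _ => if_neg fun h =>
            hj (Finset.mem_image.2 ⟨l, hl, h.2.symm⟩)).symm))
      rw [distX_bid]; exact zero_le
    rw [← ENNReal.ofReal_one]
    refine distX_le zero_le_one 0 fun φ => le_of_forall_pos_le_add fun ε hε => ?_
    rw [map_zero, sub_zero]
    refine le_of_tendsto (hU φ).norm ?_
    obtain ⟨F, hF⟩ := (shrink b φ (show 0 < ε / (√s + 1) by positivity)).exists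
    have h1 : ∀ p ∈ F.preimage e he.injOn, ∀ q ∈ F.preimage e he.injOn, ∀ᶠ N in atTop,
        (∀ n < N, code p.2 n = code q.2 n) → p.2 = q.2 := fun p _ q _ => by
      by_cases h : p.2 = q.2
      · exact Eventually.of_forall fun _ _ => h
      obtain ⟨n, hn⟩ := Function.ne_iff.1 (hc.ne h)
      filter_upwards [eventually_gt_atTop n] with N hN h' using absurd (h' n hN) hn
    obtain ⟨N, hN⟩ := eventually_atTop.1 ((eventually_all_finset _).2 fun p hp =>
      (eventually_all_finset _).2 (h1 p hp))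
    filter_upwards [hk N] with a ha
    have h2 : pr b F * vl (f a) =
        vl (Ts b e x0 a.1.1 fun i => (a.1.2 i).filter fun x => e (i, x) ∈ F) :=
      ext_op b fun i j => by
        simp only [f, en_prl, en_Ts, Finset.sum_filter]
        split_ifs with h <;> rw [Finset.mem_coe] at h
        · refine Finset.sum_congr rfl fun l _ => Finset.sum_congr rfl fun x _ => ?_
          by_cases h' : i = e (l, x)
          · simp [← h', h]
          · simp [h']
        · refine (Finset.sum_eq_zero fun l _ => Finset.sum_eq_zero fun x _ => ?_).symm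
          by_cases h' : i = e (l, x)
          · simp [← h', h]
          · simp [h']
    have h3 : ‖win b F (vl (f a))‖ ≤ 1 := by
      refine (win_le b _ _).trans ?_
      rw [h2, norm_vl]
      simpa using Ts_le b x0 he a.1.1 (fun i => (a.1.2 i).filter fun x => e (i, x) ∈ F) (s := 1)
        fun i => Finset.card_le_one.2 fun x hx y hy => hN _ ha (i, x)
          (Finset.mem_preimage.2 (Finset.mem_filter.1 hx).2) (i, y)
          (Finset.mem_preimage.2 (Finset.mem_filter.1 hy).2)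
          ((a.2 i).2 x (Finset.mem_filter.1 hx).1 y (Finset.mem_filter.1 hy).1)
    have h4 := (φ - cut b F φ).le_of_opNorm_le_of_le hF (hf a)
    rw [ContinuousLinearMap.sub_apply, cut_apply] at h4
    have h5 := φ.le_opNorm_of_le h3
    have h6 : ε / (√s + 1) * √s ≤ ε := by
      rw [div_mul_eq_mul_div, div_le_iff₀ (by positivity)]; nlinarith
    linarith [norm_sub_norm_le (φ (f a)) (φ (win b F (vl (f a))))]
  · obtain ⟨p, hp, hp'⟩ := branch code s (In := fun P => ∃ g ∈ L, ∀ p ∈ P,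
        1 / 2 ≤ ‖ent b (e p) (e (p.1, x0)) g‖)
      (fun P Q h ⟨g, h1, h2⟩ => ⟨g, h1, fun p hp => h2 p (h hp)⟩) fun k t ht => by
        obtain ⟨g, hg, h1⟩ := hσ _ ⟨⟨(k, t), ht⟩, rfl⟩
        have : ∀ i, ∃ x, i < k → x ∈ t i ∧ 1 / 2 ≤ ‖ent b (e (i, x)) (e (i, x0)) g‖ := fun i => by
          by_contra h2
          push Not at h2
          have hi := (h2 x0).1
          have h3 := (b.orthonormal.comp _ (he.comp (Prod.mk_right_injective i))).sum_inner_products_le
            (s := t i) (vl (Ts b e x0 k t - g) (b (e (i, x0))))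
          have h4 : ‖vl (Ts b e x0 k t - g) (b (e (i, x0)))‖ ≤ σ := by
            simpa [b.orthonormal.1] using (vl (Ts b e x0 k t - g)).le_of_opNorm_le h1 (b (e (i, x0)))
          have h5 := Finset.card_nsmul_le_sum (t i) (fun x => ‖en b (vl (Ts b e x0 k t - g))
            (e (i, x)) (e (i, x0))‖ ^ 2) ((1 / 2) ^ 2) fun x hx => by
              refine pow_le_pow_left₀ (by norm_num) ?_ 2
              have : en b (vl (Ts b e x0 k t)) (e (i, x)) (e (i, x0)) = 1 := by
                simp [en_Ts, he.eq_iff, ite_and, hi, hx]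
              rw [map_sub, en_sub, this]
              have h6 := norm_sub_norm_le 1 (en b (vl g) (e (i, x)) (e (i, x0)))
              have h7 : ‖en b (vl g) (e (i, x)) (e (i, x0))‖ < 1 / 2 := (h2 x).2 hx
              rw [norm_one] at h6
              linarith
          rw [(ht i).1, nsmul_eq_mul] at h5
          have h6 := h5.trans (h3.trans (pow_le_pow_left₀ (norm_nonneg _) h4 2))
          have h7 := pow_lt_pow_left₀ h0 ((norm_nonneg _).trans h4) two_ne_zero
          rw [div_pow, Real.sq_sqrt (by positivity)] at h7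
          linarith
        choose x hx using this
        refine ⟨x, fun i hi => (hx i hi).1, g, hg, ?_⟩
        rintro ⟨i, y⟩ ⟨-, h2, h3⟩
        obtain rfl : y = x i := h3
        exact (hx i h2).2
    choose G hG hG' using hp'
    obtain ⟨g, hg⟩ := weak_lim hL (hyperfilter ℕ) fun m => ⟨G m, hG m⟩
    obtain ⟨F, hF⟩ := (left_tail b (vl_cpt g.1) (show (0 : ℝ) < 1 / 4 by norm_num)).exists
    obtain ⟨n, hn⟩ : ∃ n, e (p n) ∉ F := by
      by_contra h
      push Not at h
      exact infinite_range_of_injective (he.comp (Function.Injective.of_comp hp.injective))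
        (F.finite_toSet.subset (forall_mem_range.2 h))
    have h1 : 1 / 2 ≤ ‖ent b (e (p n)) (e ((p n).1, x0)) g‖ := ge_of_tendsto (hg _).norm
      ((Nat.cofinite_eq_atTop ▸ hyperfilter_le_cofinite : (hyperfilter ℕ : Filter ℕ) ≤ atTop)
        ((eventually_gt_atTop n).mono fun m hm => hG' m _ ⟨n, hm, rfl⟩))
    have h2 := (en_le b _ (e (p n)) (e ((p n).1, x0))).trans hF
    rw [en_prl, if_pos (show _ ∈ (↑F : Set ι)ᶜ from hn)] at h2
    rw [ent_apply] at h1
    linarith

include b in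
theorem sep_iff : TopologicalSpace.SeparableSpace H ↔ Countable ι := by
  constructor
  · intro _
    refine countable_univ_iff.1 (Set.PairwiseDisjoint.countable_of_isOpen (a := univ)
      (s := fun i => Metric.ball (b i) (1 / 2)) (fun i _ j _ h => Metric.ball_disjoint_ball ?_)
      (fun _ _ => Metric.isOpen_ball) fun _ _ => Metric.nonempty_ball.2 (by norm_num))
    have := norm_inner_le_norm (𝕜 := ℂ) (b i) (b i - b j)
    rw [inner_sub_right, bb, bb, if_pos rfl, if_neg h, b.orthonormal.1] at this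
    rw [dist_eq_norm]
    norm_num at this ⊢
    exact this
  · intro _
    have := ((countable_range b).isSeparable.span (R := ℂ)).closure
    rw [← Submodule.topologicalClosure_coe, b.dense_span] at this
    exact TopologicalSpace.isSeparable_univ_iff.1 this

theorem main : (TopologicalSpace.SeparableSpace H → ∀ A : Set (KH H), Bornology.IsBounded A →
      omega A = wk A ∧ wk A = wck A) ∧
    (¬ TopologicalSpace.SeparableSpace H → ∀ c : NNReal, ∃ A : Set (KH H),
      Bornology.IsBounded A ∧ wk A ≤ 1 ∧ (c : ℝ≥0∞) * wk A < omega A) := by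
  obtain ⟨w, b, -⟩ := exists_hilbertBasis ℂ H
  rw [sep_iff b]
  constructor
  · intro _ A hA
    obtain ⟨r, hr⟩ := exists_injective_nat w
    have hF : ∀ n i, i ∈ (Finset.range n).preimage r hr.injOn ↔ r i < n := by simp
    exact ⟨(omega_le_wk b hF hA).antisymm (wk_le_omega A), (wk_le_wck b hF A).antisymm (wck_le_wk hA)⟩
  · intro h c
    have h1 : Cardinal.aleph 1 ≤ Cardinal.mk w := by
      rw [← Cardinal.succ_aleph0, Order.succ_le_iff, Cardinal.aleph0_lt_mk_iff]
      exact not_countable_iff.1 h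
    let Γ := (Cardinal.aleph 1 : Cardinal.{0}).out
    have h2 : Cardinal.mk Γ = Cardinal.aleph 1 := Cardinal.mk_out _
    haveI : Uncountable Γ := Cardinal.aleph0_lt_mk_iff.1 (h2 ▸ Cardinal.aleph0_lt_aleph_one)
    obtain ⟨e⟩ : Nonempty (ℕ × Γ ↪ w) := (Cardinal.le_def _ _).1 (by simpa [h2] using h1)
    obtain ⟨code⟩ : Nonempty (Γ ↪ ℕ → Bool) := (Cardinal.le_def _ _).1
      (by simpa [h2] using Cardinal.aleph_one_le_continuum)
    obtain ⟨n, hn⟩ := exists_nat_gt (2 * c : ℝ)
    obtain ⟨A, a1, a2, a3⟩ := main_ns b (Classical.arbitrary Γ) e.injective code code.injective (n ^ 2)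
    refine ⟨A, a1, a2, (mul_le_of_le_one_right' a2).trans_lt (lt_of_lt_of_le ?_ a3)⟩
    rw [← ENNReal.ofReal_coe_nnreal, ENNReal.ofReal_lt_ofReal_iff_of_nonneg c.coe_nonneg, Nat.cast_pow,
      Real.sqrt_sq n.cast_nonneg]
    linarith

end Pool.Agent.H.MP_af3abc_an
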